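import Pool.Agent.Helper38.SG.CalcB

/-! # Sobolev gap, piece CALC-C: left derivatives -/

open Filter Topology Set
open scoped RealInnerProductSpace ContDiff

universe u

namespace Pool.Agent.Helper41.SG

open Pool.Agent.Helper38.SG

variable {G 𝔤 : Type u} [Group G] [TopologicalSpace G] [IsTopologicalGroup G]
  [NormedAddCommGroup 𝔤] [InnerProductSpace ℝ 𝔤] [FiniteDimensional ℝ 𝔤]

variable (L : LieData G 𝔤)

variable {F : Type*} [NormedAddCommGroup F] [NormedSpace ℝ F]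

/-! ### auxiliary facts -/

omit [IsTopologicalGroup G] [FiniteDimensional ℝ 𝔤] in
theorem exp_neg_smul_mul (X : 𝔤) (x : G) (t : ℝ) :
    L.exp (-(t • X)) * x = x * L.exp (t • (-L.Ad x⁻¹ X)) := by
  have h := L.exp_Ad x⁻¹ (-(t • X))
  have h2 : L.Ad x⁻¹ (-(t • X)) = t • (-L.Ad x⁻¹ X) := by
    rw [map_neg, map_smul, smul_neg]
  rw [← h2, h, inv_inv]
  simp only [mul_assoc, mul_inv_cancel_left]

/-- `Ad (exp (t X)) X = X`. -/
theorem Ad_exp_smul_self (X : 𝔤) (t : ℝ) : L.Ad (L.exp (t • X)) X = X := by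
  have hder : ∀ s : ℝ, HasDerivAt (fun t : ℝ => L.Ad (L.exp (t • X)) X) 0 s := by
    intro s
    have h0 := L.hasDerivAt_Ad X X
    rw [L.br_self X] at h0
    have h1 : HasDerivAt (fun t : ℝ => L.Ad (L.exp ((t - s) • X)) X) 0 s := by
      have h0' : HasDerivAt (fun t : ℝ => L.Ad (L.exp (t • X)) X) 0 (s - s) := by
        rw [sub_self]; exact h0
      have h5 : HasDerivAt (fun t : ℝ => t - s) 1 s := (hasDerivAt_id s).sub_const s
      have := HasDerivAt.scomp (h := fun t : ℝ => t - s) s h0' h5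
      rw [smul_zero] at this
      exact this
    have h2 := ((LinearMap.toContinuousLinearMap (L.Ad (L.exp (s • X)))).hasFDerivAt).comp_hasDerivAt
      s h1
    have h3 : (fun t : ℝ => L.Ad (L.exp (t • X)) X) =
        (⇑(LinearMap.toContinuousLinearMap (L.Ad (L.exp (s • X)))) ∘
          fun t : ℝ => L.Ad (L.exp ((t - s) • X)) X) := by
      funext t
      have h4 : t • X = (s + (t - s)) • X := by congr 1; ring
      rw [h4, L.exp_add_smul, map_mul]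
      rfl
    rw [h3]
    simpa using h2
  have hc := is_const_of_deriv_eq_zero (f := fun t : ℝ => L.Ad (L.exp (t • X)) X)
    (fun s => (hder s).differentiableAt) (fun s => (hder s).deriv) t 0
  have hc' : L.Ad (L.exp (t • X)) X = L.Ad (L.exp ((0 : ℝ) • X)) X := hc
  rw [hc', zero_smul, L.exp_zero, map_one, Module.End.one_apply]

omit [IsTopologicalGroup G] [FiniteDimensional ℝ 𝔤] in
theorem rD_neg (X : 𝔤) (f : G → F) (x : G) : L.rD (-X) f x = -L.rD X f x := by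
  simp only [LieData.rD, map_neg]

omit [IsTopologicalGroup G] [FiniteDimensional ℝ 𝔤] in
theorem rD_add (X Y : 𝔤) (f : G → F) (x : G) :
    L.rD (X + Y) f x = L.rD X f x + L.rD Y f x := by
  simp only [LieData.rD, map_add]

omit [IsTopologicalGroup G] in
/-- expansion in the direction -/
theorem rD_basis (Y : 𝔤) (f : G → F) (x : G) :
    L.rD Y f x = ∑ i, ⟪stdOrthonormalBasis ℝ 𝔤 i, Y⟫ • L.rD (stdOrthonormalBasis ℝ 𝔤 i) f x := by
  conv_lhs => rw [← (stdOrthonormalBasis ℝ 𝔤).sum_repr' Y]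
  simp only [LieData.rD, map_sum, map_smul]

omit [IsTopologicalGroup G] in
theorem lD_basis (X : 𝔤) (f : G → F) : L.lD X f = fun x =>
    -∑ i, ⟪stdOrthonormalBasis ℝ 𝔤 i, L.Ad x⁻¹ X⟫ • L.rD (stdOrthonormalBasis ℝ 𝔤 i) f x := by
  funext x
  rw [LieData.lD, rD_basis]

/-! ### the statements of the piece -/

theorem hasDerivAt_lD {f : G → F} (hf : L.Smooth f) (X : 𝔤) (x : G) (t : ℝ) :
    HasDerivAt (fun t : ℝ => f (L.exp (-(t • X)) * x))
      (L.lD X f (L.exp (-(t • X)) * x)) t := by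
  have h := L.hasDerivAt_rD hf (-L.Ad x⁻¹ X) x t
  have e1 : (fun t : ℝ => f (L.exp (-(t • X)) * x)) =
      fun t : ℝ => f (x * L.exp (t • (-L.Ad x⁻¹ X))) := by
    funext s; rw [exp_neg_smul_mul]
  have e2 : L.lD X f (L.exp (-(t • X)) * x) =
      L.rD (-L.Ad x⁻¹ X) f (x * L.exp (t • (-L.Ad x⁻¹ X))) := by
    rw [LieData.lD, rD_neg, ← exp_neg_smul_mul]
    congr 2
    rw [mul_inv_rev, L.exp_neg, inv_inv, map_mul, Module.End.mul_apply, Ad_exp_smul_self]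
  rw [e1, e2]
  exact h

theorem Smooth.lD {f : G → F} (hf : L.Smooth f) (X : 𝔤) : L.Smooth (L.lD X f) := by
  rw [lD_basis]
  intro x
  have hA := L.smooth_Ad_inv X x
  have : ContDiffAt ℝ ∞ (fun Y : 𝔤 => ∑ i, ⟪stdOrthonormalBasis ℝ 𝔤 i,
      L.Ad (x * L.exp Y)⁻¹ X⟫ • L.rD (stdOrthonormalBasis ℝ 𝔤 i) f (x * L.exp Y)) 0 := by
    refine ContDiffAt.sum fun i _ => ?_
    refine ContDiffAt.smul ?_ (LieData.Smooth.rD L hf _ x)
    exact contDiffAt_const.inner ℝ hA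
  exact this.neg

/-- the formula for second left derivatives -/
theorem lD_lD_eq {f : G → F} (hf : L.Smooth f) (X Y : 𝔤) (x : G) :
    L.lD X (L.lD Y f) x = -L.rD (L.br (L.Ad x⁻¹ X) (L.Ad x⁻¹ Y)) f x +
      L.rD (L.Ad x⁻¹ X) (L.rD (L.Ad x⁻¹ Y) f) x := by
  obtain ⟨A, hA⟩ : ∃ A, A = L.Ad x⁻¹ X := ⟨_, rfl⟩
  obtain ⟨B, hB⟩ : ∃ B, B = L.Ad x⁻¹ Y := ⟨_, rfl⟩
  have hx : x * L.exp (0 : 𝔤) = x := by rw [L.exp_zero, mul_one]
  -- the derivative of `Ad`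
  have hAdD : DifferentiableAt ℝ (fun Z : 𝔤 => L.Ad (x * L.exp Z)⁻¹ Y) 0 :=
    (L.smooth_Ad_inv Y x).differentiableAt (by simp)
  have hAd : fderiv ℝ (fun Z : 𝔤 => L.Ad (x * L.exp Z)⁻¹ Y) 0 A = -L.br A B := by
    have := L.rD_Ad_inv Y A x
    rw [← hB] at this
    exact this
  have hin : ∀ v : 𝔤, HasFDerivAt (fun Z : 𝔤 => ⟪v, L.Ad (x * L.exp Z)⁻¹ Y⟫)
      ((innerSL ℝ v).comp (fderiv ℝ (fun Z : 𝔤 => L.Ad (x * L.exp Z)⁻¹ Y) 0)) 0 := by
    intro v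
    exact (innerSL ℝ v).hasFDerivAt.comp 0 hAdD.hasFDerivAt
  have hr : ∀ v : 𝔤, HasFDerivAt (fun Z : 𝔤 => L.rD v f (x * L.exp Z))
      (fderiv ℝ (fun Z : 𝔤 => L.rD v f (x * L.exp Z)) 0) 0 := fun v =>
    ((LieData.Smooth.rD L hf v x).differentiableAt (by simp)).hasFDerivAt
  have hsum : HasFDerivAt (fun Z : 𝔤 => ∑ i, ⟪stdOrthonormalBasis ℝ 𝔤 i,
      L.Ad (x * L.exp Z)⁻¹ Y⟫ • L.rD (stdOrthonormalBasis ℝ 𝔤 i) f (x * L.exp Z))
      (∑ i, (⟪stdOrthonormalBasis ℝ 𝔤 i, L.Ad (x * L.exp 0)⁻¹ Y⟫ •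
        fderiv ℝ (fun Z : 𝔤 => L.rD (stdOrthonormalBasis ℝ 𝔤 i) f (x * L.exp Z)) 0 +
        ((innerSL ℝ (stdOrthonormalBasis ℝ 𝔤 i)).comp
          (fderiv ℝ (fun Z : 𝔤 => L.Ad (x * L.exp Z)⁻¹ Y) 0)).smulRight
          (L.rD (stdOrthonormalBasis ℝ 𝔤 i) f (x * L.exp 0)))) 0 := by
    refine HasFDerivAt.fun_sum fun i _ => ?_
    exact (hin _).smul (hr _)
  have hneg := hsum.neg
  have e1 : L.lD X (L.lD Y f) x = -(fderiv ℝ (fun Z : 𝔤 => L.lD Y f (x * L.exp Z)) 0 A) := by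
    rw [hA]; rfl
  have e2 : (fun Z : 𝔤 => L.lD Y f (x * L.exp Z)) = (-fun Z : 𝔤 => ∑ i,
      ⟪stdOrthonormalBasis ℝ 𝔤 i, L.Ad (x * L.exp Z)⁻¹ Y⟫ •
        L.rD (stdOrthonormalBasis ℝ 𝔤 i) f (x * L.exp Z)) := by
    funext Z; rw [lD_basis]; rfl
  rw [e1, e2, hneg.fderiv, ← hA, ← hB]
  -- the right hand side
  have hBf : L.rD B f = fun z => ∑ i, ⟪stdOrthonormalBasis ℝ 𝔤 i, B⟫ •
      L.rD (stdOrthonormalBasis ℝ 𝔤 i) f z := by
    funext z; exact rD_basis L B f z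
  have hrB : L.rD A (L.rD B f) x = ∑ i, ⟪stdOrthonormalBasis ℝ 𝔤 i, B⟫ •
      fderiv ℝ (fun Z : 𝔤 => L.rD (stdOrthonormalBasis ℝ 𝔤 i) f (x * L.exp Z)) 0 A := by
    rw [hBf]
    have hs2 : HasFDerivAt (fun Z : 𝔤 => ∑ i, ⟪stdOrthonormalBasis ℝ 𝔤 i, B⟫ •
        L.rD (stdOrthonormalBasis ℝ 𝔤 i) f (x * L.exp Z))
        (∑ i, ⟪stdOrthonormalBasis ℝ 𝔤 i, B⟫ •
          fderiv ℝ (fun Z : 𝔤 => L.rD (stdOrthonormalBasis ℝ 𝔤 i) f (x * L.exp Z)) 0) 0 :=
      HasFDerivAt.fun_sum fun i _ => (hr _).const_smul _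
    have : L.rD A (fun z => ∑ i, ⟪stdOrthonormalBasis ℝ 𝔤 i, B⟫ •
        L.rD (stdOrthonormalBasis ℝ 𝔤 i) f z) x = fderiv ℝ (fun Z : 𝔤 => ∑ i,
        ⟪stdOrthonormalBasis ℝ 𝔤 i, B⟫ •
        L.rD (stdOrthonormalBasis ℝ 𝔤 i) f (x * L.exp Z)) 0 A := rfl
    rw [this, hs2.fderiv]
    simp
  rw [hrB, rD_basis L (L.br A B) f x]
  simp only [hx, neg_apply, sum_apply, add_apply, smul_apply, ContinuousLinearMap.smulRight_apply,
    ContinuousLinearMap.comp_apply, hAd, innerSL_apply_apply, inner_neg_right, neg_smul,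
    Finset.sum_add_distrib, Finset.sum_neg_distrib]
  rw [← hB]
  abel

theorem lD_commutator {f : G → F} (hf : L.Smooth f) (X Y : 𝔤) (x : G) :
    L.lD X (L.lD Y f) x - L.lD Y (L.lD X f) x = L.lD (L.br X Y) f x := by
  obtain ⟨A, hA⟩ : ∃ A, A = L.Ad x⁻¹ X := ⟨_, rfl⟩
  obtain ⟨B, hB⟩ : ∃ B, B = L.Ad x⁻¹ Y := ⟨_, rfl⟩
  have hanti : L.br B A = -L.br A B := by
    have h := L.br_self (A + B)
    simp only [map_add, LinearMap.add_apply, L.br_self A, L.br_self B, zero_add,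
      add_zero] at h
    rw [← add_eq_zero_iff_eq_neg]
    exact h
  have hc := L.rD_commutator hf A B x
  have e3 : L.lD (L.br X Y) f x = -L.rD (L.br A B) f x := by
    rw [LieData.lD, L.Ad_br, ← hA, ← hB]
  rw [lD_lD_eq L hf X Y x, lD_lD_eq L hf Y X x, e3, ← hA, ← hB, hanti, rD_neg]
  have h1 : L.rD A (L.rD B f) x = L.rD (L.br A B) f x + L.rD B (L.rD A f) x := by
    rw [← hc]; abel
  rw [h1]
  abel

/-- second derivatives along one-parameter groups agree -/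
theorem lD_lD {f : G → F} (hf : L.Smooth f) (X : 𝔤) (x : G) :
    L.lD X (L.lD X f) x = L.rD (L.Ad x⁻¹ X) (L.rD (L.Ad x⁻¹ X) f) x := by
  rw [lD_lD_eq L hf X X x, L.br_self]
  simp [LieData.rD]

theorem lD_comp_mul_right {f : G → F} (hf : L.Smooth f) (X : 𝔤) (g x : G) :
    L.lD X (fun x => f (x * g)) x = L.lD X f (x * g) := by
  have h1 := hasDerivAt_lD L (LieData.Smooth.comp_mul_right L hf g) X x 0
  have h2 := hasDerivAt_lD L hf X (x * g) 0
  rw [zero_smul, neg_zero, L.exp_zero, one_mul] at h1 h2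
  have e : (fun t : ℝ => f (L.exp (-(t • X)) * (x * g))) =
      fun t : ℝ => f (L.exp (-(t • X)) * x * g) := by
    funext t; rw [mul_assoc]
  rw [e] at h2
  exact h1.unique h2

omit [IsTopologicalGroup G] [FiniteDimensional ℝ 𝔤] in
/-- `π(g) (X f) = (Ad(g) X) π(g) f` -/
theorem lt_lD {f : G → F} (X : 𝔤) (g x : G) :
    L.lD X f (g⁻¹ * x) = L.lD (L.Ad g X) (lt g f) x := by
  have e : (fun Y : 𝔤 => f (g⁻¹ * x * L.exp Y)) = fun Y : 𝔤 => lt g f (x * L.exp Y) := by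
    funext Y; rw [lt, mul_assoc]
  simp only [LieData.lD, LieData.rD]
  rw [e, mul_inv_rev, inv_inv, map_mul, Module.End.mul_apply]

/-- uniform convergence of the difference quotients on compact sets -/
theorem tendstoUniformlyOn_lD {f : G → F} (hf : L.Smooth f) (X : 𝔤) {Q : Set G}
    (hQ : IsCompact Q) :
    TendstoUniformlyOn (fun (t : ℝ) (x : G) => t⁻¹ • (f (L.exp (-(t • X)) * x) - f x))
      (L.lD X f) (𝓝[≠] 0) Q := by
  have hcont : Continuous (L.lD X f) :=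
    LieData.Smooth.continuous L (Smooth.lD L hf X)
  have hc2 : Continuous fun p : ℝ × G => L.lD X f (L.exp (-(p.1 • X)) * p.2) := by
    refine hcont.comp ((L.continuous_exp.comp ?_).mul continuous_snd)
    exact (continuous_fst.smul continuous_const).neg
  rw [Metric.tendstoUniformlyOn_iff]
  intro ε hε
  have hev : ∀ᶠ s in 𝓝 (0 : ℝ), ∀ x ∈ Q,
      ‖L.lD X f (L.exp (-(s • X)) * x) - L.lD X f x‖ < ε / 2 := by
    refine hQ.eventually_forall_of_forall_eventually fun y _ => ?_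
    have hc3 : Continuous fun p : ℝ × G =>
        ‖L.lD X f (L.exp (-(p.1 • X)) * p.2) - L.lD X f p.2‖ :=
      (hc2.sub (hcont.comp continuous_snd)).norm
    have h0 : ‖L.lD X f (L.exp (-((0 : ℝ) • X)) * y) - L.lD X f y‖ < ε / 2 := by
      rw [zero_smul, neg_zero, L.exp_zero, one_mul, sub_self, norm_zero]
      exact half_pos hε
    exact (hc3.continuousAt (x := ((0 : ℝ), y))).eventually (gt_mem_nhds h0)
  obtain ⟨δ, hδ, hball⟩ := Metric.eventually_nhds_iff.1 hev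
  rw [eventually_nhdsWithin_iff]
  refine Metric.eventually_nhds_iff.2 ⟨δ, hδ, fun t ht ht0 x hx => ?_⟩
  have ht0' : t ≠ 0 := ht0
  have htδ : |t| < δ := by simpa [Real.dist_eq] using ht
  have hseg : ∀ s ∈ uIcc (0 : ℝ) t, ‖L.lD X f (L.exp (-(s • X)) * x) - L.lD X f x‖ ≤ ε / 2 := by
    intro s hs
    refine (hball ?_ x hx).le
    rw [Real.dist_eq, sub_zero]
    refine lt_of_le_of_lt ?_ htδ
    have := abs_sub_left_of_mem_uIcc hs
    simpa using this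
  have hder : ∀ s ∈ uIcc (0 : ℝ) t,
      HasDerivWithinAt (fun s : ℝ => f (L.exp (-(s • X)) * x) - s • L.lD X f x)
      (L.lD X f (L.exp (-(s • X)) * x) - L.lD X f x) (uIcc 0 t) s := by
    intro s _
    have h1 := (hasDerivAt_lD L hf X x s).hasDerivWithinAt (s := uIcc 0 t)
    have h2 : HasDerivWithinAt (fun s : ℝ => s • L.lD X f x) (L.lD X f x) (uIcc 0 t) s := by
      simpa using ((hasDerivAt_id s).smul_const (L.lD X f x)).hasDerivWithinAt (s := uIcc 0 t)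
    exact h1.sub h2
  have hmv := Convex.norm_image_sub_le_of_norm_hasDerivWithin_le hder hseg
    (convex_uIcc 0 t) (left_mem_uIcc) (right_mem_uIcc)
  simp only [zero_smul, neg_zero, L.exp_zero, one_mul, sub_zero] at hmv
  have hkey : L.lD X f x - t⁻¹ • (f (L.exp (-(t • X)) * x) - f x) =
      -(t⁻¹ • (f (L.exp (-(t • X)) * x) - t • L.lD X f x - f x)) := by
    rw [smul_sub, smul_sub, smul_sub, smul_smul, inv_mul_cancel₀ ht0', one_smul]
    abel
  rw [dist_eq_norm, hkey, norm_neg, norm_smul, norm_inv]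
  have htp : 0 < ‖t‖ := norm_pos_iff.2 ht0'
  calc ‖t‖⁻¹ * ‖f (L.exp (-(t • X)) * x) - t • L.lD X f x - f x‖
      ≤ ‖t‖⁻¹ * (ε / 2 * ‖t‖) := by gcongr
    _ = ε / 2 := by field_simp
    _ < ε := half_lt_self hε

end Pool.Agent.Helper41.SG
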