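import Pool.Agent.Helper38.SG.InvA

/-! # Sobolev gap, piece INV-B: the invariant pairing -/

open Filter Topology Set MeasureTheory
open scoped RealInnerProductSpace ContDiff

universe u

namespace Pool.Agent.Helper41.SG

open Pool.Agent.Helper38.SG

variable {G 𝔤 : Type u} [Group G] [TopologicalSpace G] [IsTopologicalGroup G] [T2Space G]
  [NormedAddCommGroup 𝔤] [InnerProductSpace ℝ 𝔤] [FiniteDimensional ℝ 𝔤] {P : ParData G 𝔤}
  [MeasurableSpace P.K] [BorelSpace P.K] (μ : Measure P.K) [IsProbabilityMeasure μ]
  [μ.IsMulLeftInvariant] [μ.IsMulRightInvariant]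

variable {U : Type u} [NormedAddCommGroup U] [InnerProductSpace ℂ U]

/-- the pairing `∫_K ⟪h(k), f(k)⟫ dk` -/
noncomputable def pair (h f : G → U) : ℂ := ∫ k : P.K, inner ℂ (h k) (f k) ∂μ

/-- INV-B: invariance of the pairing of two smooth induced functions -/
theorem pair_lt {R : RepData P U} {h f : G → U} (hh : IndFun R h) (hf : IndFun R f)
    (hhs : P.Smooth h) (hfs : P.Smooth f) (g : G) :
    pair μ (lt g h) (lt g f) = pair μ h f := by
  have hs : P.Smooth (fun x => inner ℂ (h x) (f x)) := by
    intro x
    exact ContDiffAt.inner ℂ (hhs x) (hfs x)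
  have key := integral_translate μ (fun x => inner ℂ (h x) (f x)) hs ?_ ?_ g⁻¹
  · exact key
  · intro x H hH
    simp only [hh.map_A x H hH, hf.map_A x H hH, inner_smul_left, inner_smul_right]
    rw [← mul_assoc, ← Complex.exp_conj, ← Complex.exp_add, Complex.real_smul,
      Complex.ofReal_exp]
    congr 2
    simp only [map_neg, map_add, map_mul, Complex.conj_I, Complex.conj_ofReal]
    push_cast
    ring
  · intro x X hX
    simp only [hh.map_N x X hX, hf.map_N x X hX]

/-- INV-B: elements of `K` are easier -/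
theorem pair_lt_K {h f : G → U} {k : G} (hk : k ∈ P.K) :
    pair μ (lt k h) (lt k f) = pair μ h f := by
  have := integral_mul_left_eq_self (μ := μ)
    (fun x : P.K => inner ℂ (h x) (f x)) (⟨k, hk⟩⁻¹ : P.K)
  simpa [pair, lt] using this

end Pool.Agent.Helper41.SG
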