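import Mathlib
import Pool.Agent.Helper38.SG.CasDefs
import Pool.Agent.Helper38.SG.SmoB

/-! # Sobolev gap, piece CAS-C: Casimir operators -/

open Filter Topology Set MeasureTheory
open scoped RealInnerProductSpace ContDiff

universe u

namespace Pool.Agent.Helper41.SG

open Pool.Agent.Helper38.SG

variable {G 𝔤 : Type u} [Group G] [TopologicalSpace G] [IsTopologicalGroup G] [T2Space G]
  [NormedAddCommGroup 𝔤] [InnerProductSpace ℝ 𝔤] [FiniteDimensional ℝ 𝔤] {P : ParData G 𝔤}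
  {U : Type u} [NormedAddCommGroup U] [InnerProductSpace ℂ U] [FiniteDimensional ℂ U]
  {R : RepData P U}

/-- CAS-C -/
theorem casRel_iff {f : G → U} (hf : f ∈ V R) (g : G → U) : CasRel P f g ↔ g = cas P f := by
  have hs : P.Smooth f := smooth_of_mem_V hf
  have hs1 : ∀ X : 𝔤, P.Smooth (P.lD X f) := fun X => LieData.Smooth.lD _ hs X
  constructor
  · rintro ⟨f1, f2, h1, h2, rfl⟩
    have e1 : ∀ i, f1 i = P.lD (stdOrthonormalBasis ℝ P.𝔨 i : 𝔤) f := fun i =>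
      (lDer_iff hs _ _).1 (h1 i)
    have e2 : ∀ i, f2 i = P.lD (stdOrthonormalBasis ℝ P.𝔨 i : 𝔤)
        (P.lD (stdOrthonormalBasis ℝ P.𝔨 i : 𝔤) f) := by
      intro i
      have := h2 i
      rw [e1 i] at this
      exact (lDer_iff (hs1 _) _ _).1 this
    simp only [e2, cas]
  · rintro rfl
    exact ⟨fun i => P.lD (stdOrthonormalBasis ℝ P.𝔨 i : 𝔤) f,
      fun i => P.lD (stdOrthonormalBasis ℝ P.𝔨 i : 𝔤)
        (P.lD (stdOrthonormalBasis ℝ P.𝔨 i : 𝔤) f),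
      fun i => (lDer_iff hs _ _).2 rfl, fun i => (lDer_iff (hs1 _) _ _).2 rfl, rfl⟩

/-- CAS-C -/
theorem cas_mem_V {f : G → U} (hf : f ∈ V R) : cas P f ∈ V R :=
  neg_mem (sum_mem fun _ _ => lD_mem_V (lD_mem_V hf _) _)

omit [IsTopologicalGroup G] [T2Space G] [FiniteDimensional ℝ 𝔤] in
theorem lD_sum_left {F : Type*} [NormedAddCommGroup F] [NormedSpace ℝ F] {ι : Type*}
    (s : Finset ι) (c : ι → ℝ) (Y : ι → 𝔤) (f : G → F) (x : G) :
    P.lD (∑ j ∈ s, c j • Y j) f x = ∑ j ∈ s, c j • P.lD (Y j) f x := by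
  simp only [LieData.lD, LieData.rD, map_sum, map_smul, smul_neg, Finset.sum_neg_distrib]

omit [IsTopologicalGroup G] [T2Space G] [FiniteDimensional ℝ 𝔤] in
theorem lD_sum_smul {F : Type*} [NormedAddCommGroup F] [NormedSpace ℝ F] {ι : Type*}
    (s : Finset ι) (c : ι → ℝ) (X : 𝔤) (g : ι → G → F) (hg : ∀ j, P.Smooth (g j)) (x : G) :
    P.lD X (fun x => ∑ j ∈ s, c j • g j x) x = ∑ j ∈ s, c j • P.lD X (g j) x := by
  have h1 : HasFDerivAt (fun Y : 𝔤 => ∑ j ∈ s, c j • g j (x * P.exp Y))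
      (∑ j ∈ s, c j • fderiv ℝ (fun Y : 𝔤 => g j (x * P.exp Y)) 0) 0 := by
    refine HasFDerivAt.fun_sum fun j _ => ?_
    exact (((hg j x).differentiableAt (by simp)).hasFDerivAt).const_smul (c j)
  simp only [LieData.lD, LieData.rD]
  rw [h1.fderiv]
  simp [Finset.sum_neg_distrib]

/-- CAS-C: the Casimir operator commutes with the Lie algebra of `K` -/
theorem cas_lD {f : G → U} (hf : f ∈ V R) {Z : 𝔤} (hZ : Z ∈ P.𝔨) :
    cas P (P.lD Z f) = P.lD Z (cas P f) := by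
  have hs : P.Smooth f := smooth_of_mem_V hf
  have hs1 : ∀ X : 𝔤, P.Smooth (P.lD X f) := fun X => LieData.Smooth.lD _ hs X
  have hs2 : ∀ X Y : 𝔤, P.Smooth (P.lD X (P.lD Y f)) := fun X Y =>
    LieData.Smooth.lD _ (hs1 Y) X
  obtain ⟨z, hz⟩ : ∃ z : Fin (Module.finrank ℝ P.𝔨) → 𝔤,
      z = fun i => (stdOrthonormalBasis ℝ P.𝔨 i : 𝔤) := ⟨_, rfl⟩
  have hzi : ∀ i, (stdOrthonormalBasis ℝ P.𝔨 i : 𝔤) = z i := fun i => by rw [hz]
  have hzk : ∀ i, z i ∈ P.𝔨 := fun i => by rw [hz]; exact Subtype.coe_prop _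
  have hθZ : P.θ Z = Z := P.mem_𝔨.1 hZ
  -- the bracket with `Z` preserves `𝔨`
  have hbr : ∀ i, P.br Z (z i) ∈ P.𝔨 := by
    intro i
    rw [P.mem_𝔨, P.θ_br, hθZ, P.mem_𝔨.1 (hzk i)]
  have hexp : ∀ i, P.br Z (z i) = ∑ j, ⟪z j, P.br Z (z i)⟫ • z j := by
    intro i
    have h1 := (stdOrthonormalBasis ℝ P.𝔨).sum_repr' ⟨P.br Z (z i), hbr i⟩
    have h2 := congrArg (Subtype.val) h1
    simp only [Submodule.coe_sum, Submodule.coe_smul, Submodule.coe_inner, hzi] at h2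
    exact h2.symm
  have hanti : ∀ i j, ⟪z j, P.br Z (z i)⟫ = -⟪z i, P.br Z (z j)⟫ := by
    intro i j
    have := P.inv Z (z i) (z j)
    rw [hθZ] at this
    rw [real_inner_comm, this]
  have hcomm : ∀ X Y : 𝔤, ∀ g : G → U, P.Smooth g → ∀ x,
      P.lD X (P.lD Y g) x = P.lD Y (P.lD X g) x + P.lD (P.br X Y) g x := by
    intro X Y g hg x
    rw [← P.lD_commutator hg X Y x]
    abel
  have hadd : ∀ (X : 𝔤) (g h : G → U), P.Smooth g → P.Smooth h → ∀ x,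
      P.lD X (fun x => g x + h x) x = P.lD X g x + P.lD X h x := by
    intro X g h hg hh x
    exact congrFun (lD_add X hg hh) x
  -- the derivatives in the direction of the bracket
  have hB : ∀ i, P.lD (P.br Z (z i)) f = fun x => ∑ j, ⟪z j, P.br Z (z i)⟫ • P.lD (z j) f x := by
    intro i
    funext x
    conv_lhs => rw [hexp i]
    exact lD_sum_left _ _ _ _ _
  have hB1 : ∀ i x, P.lD (z i) (P.lD (P.br Z (z i)) f) x =
      ∑ j, ⟪z j, P.br Z (z i)⟫ • P.lD (z i) (P.lD (z j) f) x := by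
    intro i x
    rw [hB i]
    exact lD_sum_smul _ _ _ _ (fun j => hs1 _) x
  have hB2 : ∀ i x, P.lD (P.br Z (z i)) (P.lD (z i) f) x =
      ∑ j, ⟪z j, P.br Z (z i)⟫ • P.lD (z j) (P.lD (z i) f) x := by
    intro i x
    conv_lhs => rw [hexp i]
    exact lD_sum_left _ _ _ _ _
  have hterm : ∀ i x, P.lD Z (P.lD (z i) (P.lD (z i) f)) x =
      P.lD (z i) (P.lD (z i) (P.lD Z f)) x +
        (∑ j, ⟪z j, P.br Z (z i)⟫ • P.lD (z i) (P.lD (z j) f) x +
          ∑ j, ⟪z j, P.br Z (z i)⟫ • P.lD (z j) (P.lD (z i) f) x) := by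
    intro i x
    rw [hcomm Z (z i) _ (hs1 _) x]
    have e1 : P.lD Z (P.lD (z i) f) =
        fun x => P.lD (z i) (P.lD Z f) x + P.lD (P.br Z (z i)) f x := by
      funext y
      exact hcomm Z (z i) f hs y
    rw [e1, hadd _ _ _ (hs2 _ _) (hs1 _), hB1, hB2]
    abel
  have hzero : ∀ x, ∑ i, (∑ j, ⟪z j, P.br Z (z i)⟫ • P.lD (z i) (P.lD (z j) f) x +
          ∑ j, ⟪z j, P.br Z (z i)⟫ • P.lD (z j) (P.lD (z i) f) x) = 0 := by
    intro x
    rw [Finset.sum_add_distrib]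
    have h1 : ∑ i, ∑ j, ⟪z j, P.br Z (z i)⟫ • P.lD (z j) (P.lD (z i) f) x =
        -∑ i, ∑ j, ⟪z j, P.br Z (z i)⟫ • P.lD (z i) (P.lD (z j) f) x := by
      rw [Finset.sum_comm, ← Finset.sum_neg_distrib]
      refine Finset.sum_congr rfl fun i _ => ?_
      rw [← Finset.sum_neg_distrib]
      refine Finset.sum_congr rfl fun j _ => ?_
      rw [hanti j i, neg_smul]
    rw [h1, add_neg_cancel]
  have hsumZ : ∀ x, P.lD Z (fun x => ∑ i, (1 : ℝ) • P.lD (z i) (P.lD (z i) f) x) x =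
      ∑ i, (1 : ℝ) • P.lD Z (P.lD (z i) (P.lD (z i) f)) x := fun x =>
    lD_sum_smul _ _ _ _ (fun i => hs2 _ _) x
  have hcas : ∀ g : G → U, cas P g = fun x => -∑ i, (1 : ℝ) • P.lD (z i) (P.lD (z i) g) x := by
    intro g
    funext x
    simp only [cas, hzi, one_smul, Pi.neg_apply, Finset.sum_apply]
  have hneg : ∀ (X : 𝔤) (g : G → U), ∀ x, P.lD X (fun x => -g x) x = -P.lD X g x := by
    intro X g x
    simp only [LieData.lD, LieData.rD]
    rw [fderiv_fun_neg]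
    simp
  funext x
  rw [hcas f, hneg, hsumZ]
  rw [hcas (P.lD Z f)]
  simp only [one_smul]
  rw [Finset.sum_congr rfl fun i _ => hterm i x, Finset.sum_add_distrib, hzero x, add_zero]

end Pool.Agent.Helper41.SG
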