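import Mathlib
import Pool.Agent.Helper38.SG.FCalcA
import Pool.Agent.Helper54.SG.Ana
import Pool.Agent.Helper77.SG.Uniq
import Pool.Agent.Helper38.SG.CasA

/-! # Sobolev gap, piece COEF-1: comparison of matrix coefficients of two representations -/

open Filter Topology Set MeasureTheory
open scoped RealInnerProductSpace ContDiff

universe u

namespace Pool.Agent.Helper41.SG

open Pool.Agent.Helper38.SG

variable {G 𝔤 : Type u} [Group G] [TopologicalSpace G] [IsTopologicalGroup G] [T2Space G]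
  [NormedAddCommGroup 𝔤] [InnerProductSpace ℝ 𝔤] [FiniteDimensional ℝ 𝔤] {P : ParData G 𝔤}
  {U : Type u} [NormedAddCommGroup U] [InnerProductSpace ℂ U] [FiniteDimensional ℂ U]
  {R : RepData P U}

/-- a complex representation as a real one -/
noncomputable def realRep {E : Type u} [NormedAddCommGroup E] [NormedSpace ℂ E]
    (π : G →* (E →L[ℂ] E)) : G →* (E →L[ℝ] E) where
  toFun g := (π g).restrictScalars ℝ
  map_one' := by rw [map_one]; rfl
  map_mul' g h := by rw [map_mul]; rfl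

theorem act_sum (s : Finset (Fin (Module.finrank ℝ 𝔤))) (c : Fin (Module.finrank ℝ 𝔤) → ℝ)
    (y : Fin (Module.finrank ℝ 𝔤) → 𝔤) (f : V R) :
    act R (∑ k ∈ s, c k • y k) f = ∑ k ∈ s, c k • act R (y k) f := by
  classical
  induction s using Finset.induction_on with
  | empty =>
    rw [Finset.sum_empty, Finset.sum_empty]
    have h1 := act_smul (R := R) 0 (0 : 𝔤) f
    rw [zero_smul] at h1
    exact h1.trans (Subtype.ext (by funext x; exact zero_smul ℝ _))
  | insert a s ha ih => rw [Finset.sum_insert ha, Finset.sum_insert ha, act_add, act_smul, ih]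

/-- analytic bounds for Casimir eigenvectors -/
theorem pow_bound {E : Type u} [NormedAddCommGroup E] [NormedSpace ℂ E]
    (π : G →* (E →L[ℂ] E)) {C₀ : ℝ} (hC : ∀ g v, ‖π g v‖ ≤ C₀ * ‖v‖)
    (j : V R →ₗ[ℂ] E)
    (hj : ∀ (X : 𝔤) (f : V R),
      HasDerivAt (fun t : ℝ => π (P.exp (t • X)) (j f)) (j (act R X f)) 0)
    (f : V R) (μ : ℝ) (hf : casV R f = (μ : ℂ) • f) :
    ∃ B : ℝ, 0 ≤ B ∧ ∀ X : 𝔤, ‖X‖ ≤ 1 → ∀ n : ℕ,
      ‖j ((act R X ^ n) f)‖ ≤ B ^ (n + 1) * n.factorial := by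
  obtain ⟨y, hy⟩ : ∃ y : OrthonormalBasis (Fin (Module.finrank ℝ 𝔤)) ℝ 𝔤,
      y = stdOrthonormalBasis ℝ 𝔤 := ⟨_, rfl⟩
  obtain ⟨a, ha⟩ := casimir_scalar R
  have hsum : ∑ i, act R (y i) (act R (y i) f) = -(2 * μ - a) • f := by
    apply Subtype.ext
    have h1 := ha (f : G → U) f.2 y
    have h2 : cas P (f : G → U) = (μ : ℂ) • (f : G → U) := by
      rw [← casV_coe, hf]; rfl
    rw [h2] at h1
    have h3 : ((∑ i, act R (y i) (act R (y i) f) : V R) : G → U) =
        ∑ i, P.lD (y i) (P.lD (y i) (f : G → U)) := by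
      rw [Submodule.coe_sum]; rfl
    rw [h3, h1]
    funext x
    simp only [Pi.sub_apply, Pi.smul_apply, Submodule.coe_smul_of_tower, smul_smul, ← sub_smul]
    rw [← Complex.coe_smul]
    congr 1
    push_cast
    ring
  obtain ⟨B, hB, hB2⟩ := Pool.Agent.Helper54.SG.bernstein (realRep π) (C₀ := C₀) (fun g v => hC g v)
    (j.restrictScalars ℝ) (fun i s => P.exp (s • y i)) (fun i => (act R (y i)).restrictScalars ℝ)
    (fun i s t => P.exp_add_smul s t (y i))
    (fun i v => hj (y i) v) (fun a b k => ⟪y k, P.br (y a) (y b)⟫)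
    (by
      intro a b v
      have h1 := act_comm (R := R) (y a) (y b) v
      have h2 : P.br (y a) (y b) = ∑ k, ⟪y k, P.br (y a) (y b)⟫ • y k :=
        (y.sum_repr' _).symm
      conv_rhs at h1 => rw [h2]
      rw [act_sum] at h1
      exact h1)
    f (2 * μ - a) hsum
  refine ⟨B, hB, fun X hX n => ?_⟩
  have h1 := hB2 n (fun _ i => ⟪y i, X⟫) (fun _ => by
    have := y.sum_sq_norm_inner_right X
    simp only [Real.norm_eq_abs, sq_abs] at this
    rw [this]
    exact pow_le_one₀ (norm_nonneg _) hX)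
  have h2 : ∀ m : ℕ, (List.ofFn (fun (_ : Fin m) (i : Fin (Module.finrank ℝ 𝔤)) => ⟪y i, X⟫)).foldr
      (fun a w => ∑ i, a i • (fun i => (act R (y i)).restrictScalars ℝ) i w) f =
        (act R X ^ m) f := by
    intro m
    induction m with
    | zero => simp
    | succ m ih =>
      rw [List.ofFn_succ, List.foldr_cons, ih, pow_succ', Module.End.mul_apply]
      have h4 : ∀ w, act R X w = ∑ i, ⟪y i, X⟫ • act R (y i) w := fun w => by
        rw [← act_sum, y.sum_repr' X]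
      rw [h4]
      rfl
  rw [h2 n] at h1
  exact h1

/-- the derivative along a one-parameter group at every time -/
theorem hasDerivAt_orbit {E : Type u} [NormedAddCommGroup E] [NormedSpace ℂ E]
    (π : G →* (E →L[ℂ] E)) (j : V R →ₗ[ℂ] E)
    (hj : ∀ (X : 𝔤) (f : V R),
      HasDerivAt (fun t : ℝ => π (P.exp (t • X)) (j f)) (j (act R X f)) 0)
    (X : 𝔤) (f : V R) (t : ℝ) :
    HasDerivAt (fun t : ℝ => π (P.exp (t • X)) (j f))
      (π (P.exp (t • X)) (j (act R X f))) t := by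
  have h0 : HasDerivAt (fun s : ℝ => π (P.exp (s • X)) (j f)) (j (act R X f)) (t - t) := by
    rw [sub_self]; exact hj X f
  have h5 : HasDerivAt (fun s : ℝ => s - t) 1 t := (hasDerivAt_id t).sub_const t
  have h1 := HasDerivAt.scomp (h := fun s : ℝ => s - t) t h0 h5
  rw [one_smul] at h1
  have h2 := (((π (P.exp (t • X))).restrictScalars ℝ).hasFDerivAt).comp_hasDerivAt t h1
  have e : (fun s : ℝ => π (P.exp (s • X)) (j f)) =
      (⇑((π (P.exp (t • X))).restrictScalars ℝ) ∘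
        ((fun s : ℝ => π (P.exp (s • X)) (j f)) ∘ fun s : ℝ => s - t)) := by
    funext s
    have h4 : s • X = (t + (s - t)) • X := by congr 1; ring
    simp only [Function.comp_apply, ContinuousLinearMap.coe_restrictScalars']
    conv_lhs => rw [h4, P.exp_add_smul, map_mul]
    rfl
  rw [e]
  exact h2

theorem exp_compare {E E' : Type u} [NormedAddCommGroup E] [NormedSpace ℂ E]
    [NormedAddCommGroup E'] [NormedSpace ℂ E']
    (π : G →* (E →L[ℂ] E)) (π' : G →* (E' →L[ℂ] E')) {C₀ C₀' : ℝ}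
    (hC : ∀ g v, ‖π g v‖ ≤ C₀ * ‖v‖) (hC' : ∀ g v, ‖π' g v‖ ≤ C₀' * ‖v‖)
    (j : V R →ₗ[ℂ] E) (j' : V R →ₗ[ℂ] E')
    (hj : ∀ (X : 𝔤) (f : V R),
      HasDerivAt (fun t : ℝ => π (P.exp (t • X)) (j f)) (j (act R X f)) 0)
    (hj' : ∀ (X : 𝔤) (f : V R),
      HasDerivAt (fun t : ℝ => π' (P.exp (t • X)) (j' f)) (j' (act R X f)) 0)
    (L : E →L[ℂ] ℂ) (L' : E' →L[ℂ] ℂ) (hL : ∀ f, L (j f) = L' (j' f))
    (f : V R) (μ : ℝ) (hf : casV R f = (μ : ℂ) • f) (X : 𝔤) (hX : ‖X‖ ≤ 1) (t : ℝ) :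
    L (π (P.exp (t • X)) (j f)) = L' (π' (P.exp (t • X)) (j' f)) := by
  obtain ⟨B, hB, hB2⟩ := pow_bound π hC j hj f μ hf
  obtain ⟨B', hB', hB2'⟩ := pow_bound π' hC' j' hj' f μ hf
  obtain ⟨φ, hφ⟩ : ∃ φ : ℕ → ℝ → ℂ, φ = fun n t =>
      L (π (P.exp (t • X)) (j ((act R X ^ n) f))) -
        L' (π' (P.exp (t • X)) (j' ((act R X ^ n) f))) := ⟨_, rfl⟩
  have hder : ∀ n t, HasDerivAt (φ n) (φ (n + 1) t) t := by
    intro n t
    rw [hφ]
    have h1 := ((L.restrictScalars ℝ).hasFDerivAt).comp_hasDerivAt t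
      (hasDerivAt_orbit π j hj X ((act R X ^ n) f) t)
    have h2 := ((L'.restrictScalars ℝ).hasFDerivAt).comp_hasDerivAt t
      (hasDerivAt_orbit π' j' hj' X ((act R X ^ n) f) t)
    have h3 := h1.sub h2
    have e : (act R X ^ (n + 1)) f = act R X ((act R X ^ n) f) := by
      rw [pow_succ', Module.End.mul_apply]
    simp only [e]
    exact h3
  obtain ⟨a, ha⟩ : ∃ a, a = ‖L‖ * |C₀| := ⟨_, rfl⟩
  obtain ⟨a', ha'⟩ : ∃ a', a' = ‖L'‖ * |C₀'| := ⟨_, rfl⟩
  have ha0 : 0 ≤ a := ha ▸ mul_nonneg (norm_nonneg _) (abs_nonneg _)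
  have ha0' : 0 ≤ a' := ha' ▸ mul_nonneg (norm_nonneg _) (abs_nonneg _)
  obtain ⟨M, hM⟩ : ∃ M, M = max B B' := ⟨_, rfl⟩
  have hM0 : 0 ≤ M := hM ▸ le_max_of_le_left hB
  have key : ∀ {E : Type u} [NormedAddCommGroup E] [NormedSpace ℂ E]
      (π : G →* (E →L[ℂ] E)) {C₀ : ℝ}, (∀ g v, ‖π g v‖ ≤ C₀ * ‖v‖) → ∀ (L : E →L[ℂ] ℂ) (g : G)
      (v : E), ‖L (π g v)‖ ≤ ‖L‖ * |C₀| * ‖v‖ := by
    intro E _ _ π C₀ hC L g v
    calc ‖L (π g v)‖ ≤ ‖L‖ * ‖π g v‖ := L.le_opNorm _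
      _ ≤ ‖L‖ * (|C₀| * ‖v‖) := by
        refine mul_le_mul_of_nonneg_left ((hC g v).trans ?_) (norm_nonneg _)
        exact mul_le_mul_of_nonneg_right (le_abs_self _) (norm_nonneg _)
      _ = ‖L‖ * |C₀| * ‖v‖ := by ring
  have hbd : ∀ n t, ‖φ n t‖ ≤ ((a + a' + 1) * M) ^ (n + 1) * n.factorial := by
    intro n t
    have h1 := key π hC L (P.exp (t • X)) (j ((act R X ^ n) f))
    have h2 := key π' hC' L' (P.exp (t • X)) (j' ((act R X ^ n) f))
    have h3 : ‖j ((act R X ^ n) f)‖ ≤ M ^ (n + 1) * n.factorial := by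
      refine (hB2 X hX n).trans ?_
      gcongr
      exact hM ▸ le_max_left _ _
    have h4 : ‖j' ((act R X ^ n) f)‖ ≤ M ^ (n + 1) * n.factorial := by
      refine (hB2' X hX n).trans ?_
      gcongr
      exact hM ▸ le_max_right _ _
    have h5 : ‖φ n t‖ ≤ a * (M ^ (n + 1) * n.factorial) + a' * (M ^ (n + 1) * n.factorial) := by
      rw [hφ]
      refine (norm_sub_le _ _).trans (add_le_add (h1.trans ?_) (h2.trans ?_))
      · rw [← ha]; gcongr
      · rw [← ha']; gcongr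
    refine h5.trans ?_
    have h6 : a + a' ≤ (a + a' + 1) ^ (n + 1) :=
      (by linarith : a + a' ≤ a + a' + 1).trans
        (le_self_pow₀ (by linarith) (Nat.succ_ne_zero n))
    have h7 : 0 ≤ M ^ (n + 1) * n.factorial := by positivity
    rw [mul_pow, ← add_mul]
    calc (a + a') * (M ^ (n + 1) * n.factorial)
        ≤ (a + a' + 1) ^ (n + 1) * (M ^ (n + 1) * n.factorial) := by gcongr
      _ = _ := by ring
  have h00 : ∀ n, φ n 0 = 0 := by
    intro n
    rw [hφ]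
    simp only [zero_smul, P.exp_zero, map_one]
    change L (j _) - L' (j' _) = 0
    rw [hL, sub_self]
  have hre := Pool.Agent.Helper77.SG.analytic_uniq (fun n t => (φ n t).re)
    (fun n t => by
      have := Complex.reCLM.hasFDerivAt.comp_hasDerivAt t (hder n t)
      exact this) ((a + a' + 1) * M)
    (fun n t => (Complex.abs_re_le_norm _).trans (hbd n t)) (fun n => by rw [h00]; rfl) t
  have him := Pool.Agent.Helper77.SG.analytic_uniq (fun n t => (φ n t).im)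
    (fun n t => by
      have := Complex.imCLM.hasFDerivAt.comp_hasDerivAt t (hder n t)
      exact this) ((a + a' + 1) * M)
    (fun n t => (Complex.abs_im_le_norm _).trans (hbd n t)) (fun n => by rw [h00]; rfl) t
  have h0 : φ 0 t = 0 := Complex.ext hre him
  rw [hφ] at h0
  simpa [sub_eq_zero] using h0

/-- COEF-1: if `L ∘ j = L' ∘ j'` on `V` then all matrix coefficients agree (Harish-Chandra's
analyticity argument). -/
theorem coef_compare {E E' : Type u} [NormedAddCommGroup E] [NormedSpace ℂ E]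
    [NormedAddCommGroup E'] [NormedSpace ℂ E']
    (π : G →* (E →L[ℂ] E)) (π' : G →* (E' →L[ℂ] E')) {C₀ C₀' : ℝ}
    (hC : ∀ g v, ‖π g v‖ ≤ C₀ * ‖v‖) (hC' : ∀ g v, ‖π' g v‖ ≤ C₀' * ‖v‖)
    (j : V R →ₗ[ℂ] E) (j' : V R →ₗ[ℂ] E')
    (hj : ∀ (X : 𝔤) (f : V R),
      HasDerivAt (fun t : ℝ => π (P.exp (t • X)) (j f)) (j (act R X f)) 0)
    (hj' : ∀ (X : 𝔤) (f : V R),
      HasDerivAt (fun t : ℝ => π' (P.exp (t • X)) (j' f)) (j' (act R X f)) 0)
    (hk : ∀ (k : P.K) (f : V R), π k (j f) = j (kact R k f))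
    (hk' : ∀ (k : P.K) (f : V R), π' k (j' f) = j' (kact R k f))
    (L : E →L[ℂ] ℂ) (L' : E' →L[ℂ] ℂ) (hL : ∀ f, L (j f) = L' (j' f)) (g : G) (f : V R) :
    L (π g (j f)) = L' (π' g (j' f)) := by
  obtain ⟨⟨k, Y, hY⟩, hg⟩ := P.polar.surjective g
  have hg' : g = (k : G) * P.exp Y := hg.symm
  -- reduction to eigenvectors
  obtain ⟨s, h, -, h1, h2⟩ := casV_decomp f
  have key : ∀ μ ∈ s, L (π g (j (h μ))) = L' (π' g (j' (h μ))) := by
    intro μ hμ
    rw [hg', map_mul, map_mul]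
    have h3 := exp_compare π π' hC hC' j j' hj hj' (L ∘L π k) (L' ∘L π' k)
      (fun f => by
        simp only [ContinuousLinearMap.comp_apply]
        rw [hk, hk', hL]) (h μ) μ (h1 μ hμ) ((1 + ‖Y‖)⁻¹ • Y) (by
          rw [norm_smul, norm_inv, Real.norm_of_nonneg (by positivity)]
          rw [inv_mul_le_iff₀ (by positivity)]
          linarith) (1 + ‖Y‖)
    rw [smul_smul, mul_inv_cancel₀ (by positivity), one_smul] at h3
    exact h3
  rw [h2]
  simp only [map_sum]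
  exact Finset.sum_congr rfl key

end Pool.Agent.Helper41.SG
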